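import Pool.Agent.H53R4.Restr

/-!
# Arithmetic circuits
-/

namespace Pool.Agent.H53R4

open Module MvPolynomial

section

variable {K : Type} [Field K]

/-- There is an arithmetic circuit (straight-line program whose steps are variables, constants of
`K`, sums and products of earlier results) with at most `S` steps, one of whose results satisfies
`Good`. -/
def HasCircuit {σ : Type} (S : ℕ) (Good : MvPolynomial σ K → Prop) : Prop :=
  ∃ s : ℕ, s ≤ S ∧ ∃ g : Fin s → MvPolynomial σ K,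
    (∀ i : Fin s, (∃ j : σ, g i = X j) ∨ (∃ a : K, g i = C a) ∨
      (∃ a b : Fin s, a < i ∧ b < i ∧ (g i = g a + g b ∨ g i = g a * g b))) ∧
    ∃ i : Fin s, Good (g i)

/-- One step. -/
def Step1 {σ : Type} (l : List (MvPolynomial σ K)) (p : MvPolynomial σ K) : Prop :=
  (∃ j : σ, p = X j) ∨ (∃ a : K, p = C a) ∨ (∃ a ∈ l, ∃ b ∈ l, p = a + b ∨ p = a * b)

/-- Circuits as lists (last step first). -/
inductive IsCirc {σ : Type} : List (MvPolynomial σ K) → Prop
  | nil : IsCirc []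
  | cons {l : List (MvPolynomial σ K)} {p : MvPolynomial σ K} : IsCirc l → Step1 l p →
      IsCirc (p :: l)

lemma Step1.mono {σ : Type} {l l' : List (MvPolynomial σ K)} {p : MvPolynomial σ K}
    (h : Step1 l p) (hl : ∀ a ∈ l, a ∈ l') : Step1 l' p := by
  rcases h with h | h | ⟨a, ha, b, hb, h⟩
  · exact Or.inl h
  · exact Or.inr (Or.inl h)
  · exact Or.inr (Or.inr ⟨a, hl a ha, b, hl b hb, h⟩)

lemma IsCirc.append {σ : Type} {l l' : List (MvPolynomial σ K)} (h : IsCirc l) (h' : IsCirc l') :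
    IsCirc (l ++ l') := by
  induction h with
  | nil => exact h'
  | cons _ hs ih => exact IsCirc.cons ih (hs.mono fun a ha => List.mem_append_left _ ha)

lemma toList {σ : Type} : ∀ (s : ℕ) (g : Fin s → MvPolynomial σ K),
    (∀ i : Fin s, (∃ j : σ, g i = X j) ∨ (∃ a : K, g i = C a) ∨
      (∃ a b : Fin s, a < i ∧ b < i ∧ (g i = g a + g b ∨ g i = g a * g b))) →
    ∃ l, IsCirc l ∧ l.length = s ∧ ∀ i, g i ∈ l := by
  intro s
  induction s with
  | zero => intro g _; exact ⟨[], IsCirc.nil, rfl, fun i => i.elim0⟩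
  | succ s ih =>
    intro g hg
    obtain ⟨l, hl, hlen, hmem⟩ := ih (fun i => g i.castSucc) (by
      intro i
      rcases hg i.castSucc with h | h | ⟨a, b, ha, hb, h⟩
      · exact Or.inl h
      · exact Or.inr (Or.inl h)
      · have ha' : (a : ℕ) < s := lt_trans (Fin.lt_def.mp ha) i.2
        have hb' : (b : ℕ) < s := lt_trans (Fin.lt_def.mp hb) i.2
        exact Or.inr (Or.inr ⟨⟨a, ha'⟩, ⟨b, hb'⟩, ha, hb, h⟩))
    refine ⟨g (Fin.last s) :: l, IsCirc.cons hl ?_, by simp [hlen], fun i => ?_⟩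
    · rcases hg (Fin.last s) with h | h | ⟨a, b, ha, hb, h⟩
      · exact Or.inl h
      · exact Or.inr (Or.inl h)
      · exact Or.inr (Or.inr ⟨_, hmem ⟨a, ha⟩, _, hmem ⟨b, hb⟩, h⟩)
    · rcases Fin.eq_castSucc_or_eq_last i with ⟨j, rfl⟩ | rfl
      · exact List.mem_cons_of_mem _ (hmem j)
      · exact List.mem_cons_self

lemma ofList {σ : Type} {l : List (MvPolynomial σ K)} (h : IsCirc l) :
    ∃ g : Fin l.length → MvPolynomial σ K,
    (∀ i, (∃ j : σ, g i = X j) ∨ (∃ a : K, g i = C a) ∨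
      (∃ a b, a < i ∧ b < i ∧ (g i = g a + g b ∨ g i = g a * g b))) ∧
    ∀ p ∈ l, ∃ i, g i = p := by
  induction h with
  | nil => exact ⟨fun i => i.elim0, fun i => i.elim0, fun p hp => absurd hp List.not_mem_nil⟩
  | @cons l p hl hs ih =>
    obtain ⟨g, hg, hmem⟩ := ih
    refine ⟨Fin.snoc (α := fun _ => MvPolynomial σ K) g p, fun i => ?_, fun r hr => ?_⟩
    · rcases Fin.eq_castSucc_or_eq_last i with ⟨j, rfl⟩ | rfl
      · rw [Fin.snoc_castSucc]
        rcases hg j with h | h | ⟨a, b, ha, hb, h⟩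
        · exact Or.inl h
        · exact Or.inr (Or.inl h)
        · refine Or.inr (Or.inr ⟨a.castSucc, b.castSucc, ha, hb, ?_⟩)
          rw [Fin.snoc_castSucc, Fin.snoc_castSucc]
          exact h
      · rw [Fin.snoc_last]
        rcases hs with h | h | ⟨a, ha, b, hb, h⟩
        · exact Or.inl h
        · exact Or.inr (Or.inl h)
        · obtain ⟨i, rfl⟩ := hmem a ha
          obtain ⟨j, rfl⟩ := hmem b hb
          refine Or.inr (Or.inr ⟨i.castSucc, j.castSucc, Fin.castSucc_lt_last i,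
            Fin.castSucc_lt_last j, ?_⟩)
          rw [Fin.snoc_castSucc, Fin.snoc_castSucc]
          exact h
    · rcases List.mem_cons.mp hr with rfl | hr
      · exact ⟨Fin.last _, Fin.snoc_last _ _⟩
      · obtain ⟨i, rfl⟩ := hmem r hr
        exact ⟨i.castSucc, Fin.snoc_castSucc _ _ _⟩

lemma HasCircuit.of_list {σ : Type} {l : List (MvPolynomial σ K)} (h : IsCirc l) {S : ℕ}
    (hS : l.length ≤ S) {Good : MvPolynomial σ K → Prop} {p : MvPolynomial σ K} (hp : p ∈ l)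
    (hG : Good p) : HasCircuit S Good := by
  obtain ⟨g, hg, hmem⟩ := ofList h
  obtain ⟨i, rfl⟩ := hmem p hp
  exact ⟨l.length, hS, g, hg, i, hG⟩

/-- `p` has a circuit with at most `k` steps. -/
def Cost {σ : Type} (p : MvPolynomial σ K) (k : ℕ) : Prop :=
  ∃ l, IsCirc l ∧ p ∈ l ∧ l.length ≤ k

lemma cost_X {σ : Type} (j : σ) : Cost (K := K) (X j) 1 :=
  ⟨[X j], IsCirc.cons IsCirc.nil (Or.inl ⟨j, rfl⟩), by simp, by simp⟩

lemma cost_C {σ : Type} (a : K) : Cost (σ := σ) (C a) 1 :=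
  ⟨[C a], IsCirc.cons IsCirc.nil (Or.inr (Or.inl ⟨a, rfl⟩)), by simp, by simp⟩

lemma Cost.add {σ : Type} {p r : MvPolynomial σ K} {k k' : ℕ} (h : Cost p k) (h' : Cost r k') :
    Cost (p + r) (k + k' + 1) := by
  obtain ⟨l, hl, hp, hlen⟩ := h
  obtain ⟨l', hl', hr, hlen'⟩ := h'
  refine ⟨(p + r) :: (l ++ l'), IsCirc.cons (hl.append hl') (Or.inr (Or.inr
    ⟨p, List.mem_append_left _ hp, r, List.mem_append_right _ hr, Or.inl rfl⟩)), by simp, ?_⟩
  rw [List.length_cons, List.length_append]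
  omega

lemma Cost.mul {σ : Type} {p r : MvPolynomial σ K} {k k' : ℕ} (h : Cost p k) (h' : Cost r k') :
    Cost (p * r) (k + k' + 1) := by
  obtain ⟨l, hl, hp, hlen⟩ := h
  obtain ⟨l', hl', hr, hlen'⟩ := h'
  refine ⟨(p * r) :: (l ++ l'), IsCirc.cons (hl.append hl') (Or.inr (Or.inr
    ⟨p, List.mem_append_left _ hp, r, List.mem_append_right _ hr, Or.inr rfl⟩)), by simp, ?_⟩
  rw [List.length_cons, List.length_append]
  omega

lemma cost_sum {σ ι : Type} (s : Finset ι) (b : ι → K) (w : ι → MvPolynomial σ K)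
    (hw : ∀ e, Cost (w e) 1) : Cost (∑ e ∈ s, C (b e) * w e) (4 * s.card + 1) := by
  classical
  induction s using Finset.induction_on with
  | empty =>
    rw [Finset.sum_empty]
    have := cost_C (K := K) (σ := σ) 0
    rwa [C_0] at this
  | insert e s he ih =>
    rw [Finset.sum_insert he, Finset.card_insert_of_notMem he]
    obtain ⟨l, hl, hp, hlen⟩ := ((cost_C (b e)).mul (hw e)).add ih
    exact ⟨l, hl, hp, by omega⟩

lemma exists_base {σ ι : Type} (s : Finset ι) (φ : ι → MvPolynomial σ K) {k : ℕ}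
    (h : ∀ e, Cost (φ e) k) : ∃ B, IsCirc B ∧ (0 : MvPolynomial σ K) ∈ B ∧
      (∀ e ∈ s, φ e ∈ B) ∧ B.length ≤ s.card * k + 1 := by
  classical
  induction s using Finset.induction_on with
  | empty =>
    obtain ⟨l, hl, hp, hlen⟩ := cost_C (K := K) (σ := σ) 0
    rw [C_0] at hp
    exact ⟨l, hl, hp, fun e he => absurd he (Finset.notMem_empty e), by simpa using hlen⟩
  | insert e s he ih =>
    obtain ⟨B, hB, h0, hmem, hlen⟩ := ih
    obtain ⟨l, hl, hp, hlen'⟩ := h e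
    refine ⟨l ++ B, hl.append hB, List.mem_append_right _ h0, fun e' he' => ?_, ?_⟩
    · rcases Finset.mem_insert.mp he' with rfl | he'
      · exact List.mem_append_left _ hp
      · exact List.mem_append_right _ (hmem e' he')
    · rw [List.length_append, Finset.card_insert_of_notMem he, Nat.add_mul]
      omega

lemma IsCirc.subst {σ τ : Type} {l : List (MvPolynomial σ K)} (h : IsCirc l)
    (φ : σ → MvPolynomial τ K) {B : List (MvPolynomial τ K)} (hB : IsCirc B)
    (h0 : (0 : MvPolynomial τ K) ∈ B) (hmem : ∀ e, φ e ∈ B) :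
    IsCirc (l.map (aeval φ) ++ B) := by
  induction h with
  | nil => exact hB
  | @cons l p _ hs ih =>
    rw [List.map_cons, List.cons_append]
    refine IsCirc.cons ih ?_
    rcases hs with ⟨j, rfl⟩ | ⟨a, rfl⟩ | ⟨a, ha, b, hb, h⟩
    · rw [aeval_X]
      exact Or.inr (Or.inr ⟨φ j, List.mem_append_right _ (hmem j), 0,
        List.mem_append_right _ h0, Or.inl (add_zero _).symm⟩)
    · exact Or.inr (Or.inl ⟨a, by rw [aeval_C]; rfl⟩)
    · refine Or.inr (Or.inr ⟨aeval φ a, List.mem_append_left _ (List.mem_map_of_mem ha),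
        aeval φ b, List.mem_append_left _ (List.mem_map_of_mem hb), ?_⟩)
      rcases h with rfl | rfl
      · exact Or.inl (map_add _ _ _)
      · exact Or.inr (map_mul _ _ _)

end

/-! ### Circuits for the permanent on affine subspaces -/

section

variable {K : Type} [Field K] {n q : ℕ}

lemma cost_patVal (s : Bool ⊕ (Fin q × Fin q)) : Cost (patVal (genY K q) s) 1 := by
  rcases s with (_ | _) | e
  · have := cost_C (K := K) (σ := Fin q × Fin q) 0
    rwa [C_0] at this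
  · have := cost_C (K := K) (σ := Fin q × Fin q) 1
    rwa [C_1] at this
  · exact cost_X e

lemma cost_restr (A₀ : Matrix (Fin n) (Fin n) K)
    (ψ : Matrix (Fin n) (Fin n) K →ₗ[K] Matrix (Fin n) (Fin n) K)
    (F : Fin n → Fin n → Bool ⊕ (Fin q × Fin q)) (e : Fin n × Fin n) :
    Cost (restr A₀ ψ F e.1 e.2) (4 * n ^ 2 + 3) := by
  have h := (cost_C (K := K) (σ := Fin q × Fin q) (A₀ e.1 e.2 - ψ A₀ e.1 e.2)).add
    (cost_sum Finset.univ (fun e' : Fin n × Fin n => ψ (Matrix.single e'.1 e'.2 1) e.1 e.2)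
      (fun e' => patVal (genY K q) (F e'.1 e'.2)) (fun e' => cost_patVal _))
  obtain ⟨l, hl, hp, hlen⟩ := h
  refine ⟨l, hl, hp, hlen.trans ?_⟩
  rw [Finset.card_univ, Fintype.card_prod, Fintype.card_fin, ← pow_two]
  omega

/-- **Circuits on an affine subspace of codimension at most `n - q` give circuits for the
permanent of size `q`.** -/
theorem circuit_restr [Infinite K] (hq : 1 ≤ q) (A₀ : Matrix (Fin n) (Fin n) K)
    (V : Submodule K (Matrix (Fin n) (Fin n) K)) (hdim : n ^ 2 + q ≤ finrank K V + n) {S : ℕ}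
    (h : HasCircuit S fun f : MvPolynomial (Fin n × Fin n) K =>
      ∀ X : Matrix (Fin n) (Fin n) K, X - A₀ ∈ V → eval (fun e => X e.1 e.2) f = X.permanent) :
    HasCircuit (S + (n ^ 2 * (4 * n ^ 2 + 3) + 1)) fun f => f = (genY K q).permanent := by
  obtain ⟨ψ, F, hψ, hperm⟩ := perm_restriction hq A₀ V hdim
  obtain ⟨s, hs, g, hg, i, hi⟩ := h
  obtain ⟨l, hl, hlen, hmem⟩ := toList s g hg
  obtain ⟨B, hB, h0, hBm, hBl⟩ := exists_base (Finset.univ : Finset (Fin n × Fin n))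
    (fun e => restr A₀ ψ F e.1 e.2) (fun e => cost_restr A₀ ψ F e)
  have h1 := hl.subst (fun e => restr A₀ ψ F e.1 e.2) hB h0 (fun e => hBm e (Finset.mem_univ e))
  refine HasCircuit.of_list h1 ?_ (p := aeval (fun e : Fin n × Fin n => restr A₀ ψ F e.1 e.2) (g i))
    (List.mem_append_left _ (List.mem_map_of_mem (hmem i))) (aeval_restr hψ hperm hi)
  rw [List.length_append, List.length_map, hlen]
  rw [Finset.card_univ, Fintype.card_prod, Fintype.card_fin, ← pow_two] at hBl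
  omega

end

/-! ### Polynomial bounds -/

lemma poly_le (k d : ℕ) : ∃ c : ℕ, ∀ m : ℕ, k * (m + 1) ^ d ≤ m ^ c + c := by
  refine ⟨k * 2 ^ d + 2 * d, fun m => ?_⟩
  rcases Nat.lt_or_ge m 2 with hm | hm
  · have h1 : (m + 1) ^ d ≤ 2 ^ d := Nat.pow_le_pow_left (by omega) d
    have h2 : k * (m + 1) ^ d ≤ k * 2 ^ d := Nat.mul_le_mul_left k h1
    omega
  · have h1 : (m + 1) ^ d ≤ (2 * m) ^ d := Nat.pow_le_pow_left (by omega) d
    have h2 : k * (m + 1) ^ d ≤ k * (2 * m) ^ d := Nat.mul_le_mul_left k h1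
    have h3 : k * (2 * m) ^ d = (k * 2 ^ d) * m ^ d := by rw [mul_pow]; ring
    have h4 : k * 2 ^ d ≤ m ^ (k * 2 ^ d) :=
      (Nat.lt_two_pow_self).le.trans (Nat.pow_le_pow_left hm _)
    have h5 : (k * 2 ^ d) * m ^ d ≤ m ^ (k * 2 ^ d) * m ^ d := Nat.mul_le_mul_right _ h4
    have h6 : m ^ (k * 2 ^ d) * m ^ d ≤ m ^ (k * 2 ^ d + 2 * d) := by
      rw [← pow_add]
      exact Nat.pow_le_pow_right (by omega) (by omega)
    omega

lemma le_poly (c m : ℕ) : m ^ c + c ≤ (c + 1) * (m + 1) ^ c := by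
  have h1 : m ^ c ≤ (m + 1) ^ c := Nat.pow_le_pow_left (by omega) c
  have h2 : 1 ≤ (m + 1) ^ c := Nat.one_le_pow _ _ (by omega)
  nlinarith

lemma total_bound (c e : ℕ) : ∃ c' : ℕ, ∀ m n : ℕ, n ≤ m ^ e + e →
    m ^ c + c + (n ^ 2 * (4 * n ^ 2 + 3) + 1) ≤ m ^ c' + c' := by
  obtain ⟨c', hc'⟩ := poly_le ((c + 1) + 8 * (e + 1) ^ 4) (c + 4 * e)
  refine ⟨c', fun m n hn => le_trans ?_ (hc' m)⟩
  have h1 := le_poly c m
  have h2 : n ≤ (e + 1) * (m + 1) ^ e := hn.trans (le_poly e m)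
  set N : ℕ := (e + 1) * (m + 1) ^ e with hN
  have hN1 : 1 ≤ N := Nat.mul_pos (by omega) (Nat.pow_pos (by omega))
  have h3 : n ^ 2 * (4 * n ^ 2 + 3) + 1 ≤ 8 * N ^ 4 := by
    have a1 : n ^ 2 ≤ N ^ 2 := Nat.pow_le_pow_left h2 2
    have a2 : 1 ≤ N ^ 2 := Nat.one_le_pow _ _ hN1
    have a3 : n ^ 2 * (4 * n ^ 2 + 3) ≤ N ^ 2 * (4 * N ^ 2 + 3) :=
      Nat.mul_le_mul a1 (by omega)
    nlinarith
  have h4 : N ^ 4 = (e + 1) ^ 4 * (m + 1) ^ (4 * e) := by
    rw [hN, mul_pow, ← pow_mul, mul_comm e 4]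
  have h5 : (m + 1) ^ c ≤ (m + 1) ^ (c + 4 * e) := Nat.pow_le_pow_right (by omega) (by omega)
  have h6 : (m + 1) ^ (4 * e) ≤ (m + 1) ^ (c + 4 * e) :=
    Nat.pow_le_pow_right (by omega) (by omega)
  calc m ^ c + c + (n ^ 2 * (4 * n ^ 2 + 3) + 1)
      ≤ (c + 1) * (m + 1) ^ c + 8 * N ^ 4 := by omega
    _ ≤ (c + 1) * (m + 1) ^ (c + 4 * e) + 8 * ((e + 1) ^ 4 * (m + 1) ^ (c + 4 * e)) := by
        rw [h4]
        have := Nat.mul_le_mul_left (c + 1) h5
        have h7 := Nat.mul_le_mul_left ((e + 1) ^ 4) h6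
        omega
    _ = ((c + 1) + 8 * (e + 1) ^ 4) * (m + 1) ^ (c + 4 * e) := by ring

/-- **Equivalence.** The permanents have circuits of polynomial size if and only if this holds on
one affine subspace of codimension at most `n - m`, for each `m` and some `n` polynomial in `m`. -/
theorem vp_iff (K : Type) [Field K] [Infinite K] :
    (∃ c : ℕ, ∀ m : ℕ, HasCircuit (m ^ c + c) fun f => f = (genY K m).permanent) ↔
    (∃ c e : ℕ, ∀ m : ℕ, 1 ≤ m → ∃ n : ℕ, n ≤ m ^ e + e ∧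
      ∃ (A₀ : Matrix (Fin n) (Fin n) K) (V : Submodule K (Matrix (Fin n) (Fin n) K)),
        n ^ 2 + m ≤ finrank K V + n ∧
        HasCircuit (m ^ c + c) fun f : MvPolynomial (Fin n × Fin n) K =>
          ∀ X : Matrix (Fin n) (Fin n) K, X - A₀ ∈ V →
            eval (fun e => X e.1 e.2) f = X.permanent) := by
  constructor
  · rintro ⟨c, hc⟩
    refine ⟨c, 1, fun m _ => ⟨m, by rw [pow_one]; omega, 0, ⊤, ?_, ?_⟩⟩
    · rw [finrank_top, Module.finrank_matrix]
      simp [pow_two]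
    · obtain ⟨s, hs, g, hg, i, hi⟩ := hc m
      refine ⟨s, hs, g, hg, i, fun Z _ => ?_⟩
      have hi' : g i = (genY K m).permanent := hi
      rw [hi']
      simp [genY, Matrix.permanent]
  · rintro ⟨c, e, H⟩
    obtain ⟨c', hc'⟩ := total_bound c e
    refine ⟨c' + 1, fun m => ?_⟩
    rcases Nat.eq_zero_or_pos m with rfl | hm
    · refine HasCircuit.of_list (l := [C 1]) (IsCirc.cons IsCirc.nil (Or.inr (Or.inl ⟨1, rfl⟩)))
        (by simp) (p := C 1) (by simp) ?_
      simp [Matrix.permanent]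
    · obtain ⟨n, hn, A₀, V, hdim, hcirc⟩ := H m hm
      obtain ⟨s, hs, h⟩ := circuit_restr hm A₀ V hdim hcirc
      refine ⟨s, hs.trans ((hc' m n hn).trans ?_), h⟩
      have : m ^ c' ≤ m ^ (c' + 1) := Nat.pow_le_pow_right hm (by omega)
      omega

end Pool.Agent.H53R4
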