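import Pool.Agent.H53R4.Perm

/-!
# Affine subspaces of matrices: free positions
-/

namespace Pool.Agent.H53R4

open Module Finset

universe u

section

variable {K : Type u} [Field K] {n : ℕ}

/-- The matrices supported on `P`. -/
def supp (K : Type u) [Field K] {n : ℕ} (P : Finset (Fin n × Fin n)) :
    Submodule K (Matrix (Fin n) (Fin n) K) where
  carrier := {X | ∀ i j, (i, j) ∉ P → X i j = 0}
  add_mem' := fun {X Y} hX hY i j h => by
    rw [Matrix.add_apply, hX i j h, hY i j h, add_zero]
  zero_mem' := fun i j _ => rfl
  smul_mem' := fun c X hX i j h => by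
    rw [Matrix.smul_apply, hX i j h, smul_zero]

lemma mem_supp {P : Finset (Fin n × Fin n)} {X : Matrix (Fin n) (Fin n) K} :
    X ∈ supp K P ↔ ∀ i j, (i, j) ∉ P → X i j = 0 := Iff.rfl

lemma single_mem_supp {P : Finset (Fin n × Fin n)} {e : Fin n × Fin n} (he : e ∈ P) :
    Matrix.single e.1 e.2 (1 : K) ∈ supp K P := by
  intro i j h
  rw [Matrix.single_apply, if_neg]
  rintro ⟨h1, h2⟩
  exact h (by rw [← h1, ← h2]; exact he)

/-- Every space of matrices has a complement spanned by matrix units. -/
lemma exists_compl (V : Submodule K (Matrix (Fin n) (Fin n) K)) :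
    ∃ P : Finset (Fin n × Fin n), IsCompl V (supp K P) := by
  classical
  -- a largest set of positions with trivial intersection
  let S : Finset (Finset (Fin n × Fin n)) := Finset.univ.filter fun P => Disjoint V (supp K P)
  have hS : S.Nonempty := by
    refine ⟨∅, Finset.mem_filter.mpr ⟨Finset.mem_univ _, ?_⟩⟩
    rw [Submodule.disjoint_def]
    intro X _ hX
    refine Matrix.ext fun i j => ?_
    exact hX i j (Finset.notMem_empty _)
  obtain ⟨P, hPS, hmax⟩ := Finset.exists_max_image S Finset.card hS
  have hd : Disjoint V (supp K P) := (Finset.mem_filter.mp hPS).2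
  refine ⟨P, hd, ?_⟩
  -- all matrix units are in the sum
  have hunit : ∀ e : Fin n × Fin n, Matrix.single e.1 e.2 (1 : K) ∈ V ⊔ supp K P := by
    intro e
    by_contra hcon
    have heP : e ∉ P := fun h => hcon (Submodule.mem_sup_right (single_mem_supp h))
    have hnew : insert e P ∈ S := by
      refine Finset.mem_filter.mpr ⟨Finset.mem_univ _, ?_⟩
      rw [Submodule.disjoint_def]
      intro X hXV hX
      -- remove the entry at e
      have h1 : X - X e.1 e.2 • Matrix.single e.1 e.2 (1 : K) ∈ supp K P := by
        intro i j hij
        rw [Matrix.sub_apply, Matrix.smul_apply, Matrix.single_apply, smul_eq_mul]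
        by_cases he : e.1 = i ∧ e.2 = j
        · rw [if_pos he, he.1, he.2, mul_one, sub_self]
        · rw [if_neg he, mul_zero, sub_zero]
          refine hX i j fun h => ?_
          rcases Finset.mem_insert.mp h with h | h
          · exact he (by rw [← h]; exact ⟨rfl, rfl⟩)
          · exact hij h
      by_cases hz : X e.1 e.2 = 0
      · rw [hz, zero_smul, sub_zero] at h1
        exact Submodule.disjoint_def.mp hd X hXV h1
      · exfalso
        apply hcon
        have h2 : Matrix.single e.1 e.2 (1 : K) = (X e.1 e.2)⁻¹ • X -
            (X e.1 e.2)⁻¹ • (X - X e.1 e.2 • Matrix.single e.1 e.2 (1 : K)) := by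
          rw [smul_sub, smul_smul, inv_mul_cancel₀ hz, one_smul]
          abel
        rw [h2]
        exact Submodule.sub_mem _ (Submodule.mem_sup_left (Submodule.smul_mem _ _ hXV))
          (Submodule.mem_sup_right (Submodule.smul_mem _ _ h1))
    have := hmax _ hnew
    rw [Finset.card_insert_of_notMem heP] at this
    omega
  rw [codisjoint_iff, eq_top_iff]
  intro X _
  rw [Matrix.matrix_eq_sum_single X]
  refine Submodule.sum_mem _ fun i _ => Submodule.sum_mem _ fun j _ => ?_
  have := Submodule.smul_mem _ (X i j) (hunit (i, j))
  rwa [Matrix.smul_single, smul_eq_mul, mul_one] at this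

/-- Dimension of the space of matrices supported on `P`. -/
lemma card_le_finrank_supp (P : Finset (Fin n × Fin n)) : P.card ≤ finrank K (supp K P) := by
  classical
  have hli : LinearIndependent K (fun e : P => (⟨Matrix.single e.1.1 e.1.2 (1 : K),
      single_mem_supp e.2⟩ : supp K P)) := by
    rw [Fintype.linearIndependent_iff]
    intro g hg e
    have h1 := congrArg (Submodule.subtype _) hg
    rw [map_sum, map_zero] at h1
    have h2 := congrFun (congrFun h1 e.1.1) e.1.2
    simp only [map_smul, Submodule.subtype_apply, Matrix.sum_apply, Matrix.smul_apply,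
      smul_eq_mul, Matrix.zero_apply] at h2
    rw [Finset.sum_eq_single e] at h2
    · simpa using h2
    · intro f _ hf
      rw [Matrix.single_apply, if_neg, mul_zero]
      rintro ⟨h3, h4⟩
      exact hf (Subtype.ext (Prod.ext h3 h4))
    · simp
  have := hli.fintype_card_le_finrank
  rwa [Fintype.card_coe] at this

/-- **Free positions.** A space `V` of matrices has a set `P` of at most `n² - dim V` positions such
that the entries outside `P` can be prescribed by a linear map into `V`. -/
theorem exists_free (V : Submodule K (Matrix (Fin n) (Fin n) K)) :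
    ∃ (P : Finset (Fin n × Fin n))
      (ψ : Matrix (Fin n) (Fin n) K →ₗ[K] Matrix (Fin n) (Fin n) K),
      P.card + finrank K V ≤ n ^ 2 ∧ (∀ W, ψ W ∈ V) ∧
      ∀ W i j, (i, j) ∉ P → ψ W i j = W i j := by
  classical
  obtain ⟨P, hP⟩ := exists_compl V
  refine ⟨P, V.subtype ∘ₗ V.projectionOnto (supp K P) hP, ?_, fun W => ?_, fun W i j hij => ?_⟩
  · have h1 := Submodule.finrank_add_eq_of_isCompl hP
    have h2 := card_le_finrank_supp (K := K) P
    have h3 : finrank K (Matrix (Fin n) (Fin n) K) = n ^ 2 := by
      rw [Module.finrank_matrix]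
      simp [pow_two]
    omega
  · simp
  · have h1 : W - (V.subtype ∘ₗ V.projectionOnto (supp K P) hP) W ∈ supp K P := by
      have := Submodule.ker_projectionOnto hP
      have h2 : W - (V.subtype ∘ₗ V.projectionOnto (supp K P) hP) W ∈
          LinearMap.ker (V.projectionOnto (supp K P) hP) := by
        rw [LinearMap.mem_ker, map_sub, LinearMap.comp_apply, Submodule.subtype_apply,
          Submodule.projectionOnto_apply_left, sub_self]
      rwa [this] at h2
    have h2 := h1 i j hij
    rw [Matrix.sub_apply, sub_eq_zero] at h2
    exact h2.symm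

end

end Pool.Agent.H53R4
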