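import Pool.Agent.H53R4.Restr
import Pool.Agent.Results.MP_35c45d_lc.DcPermLower

/-!
# Determinantal complexity of the permanent on affine subspaces
-/

namespace Pool.Agent.H53R4

open Module MvPolynomial

section

variable {K : Type} [Field K] {n q : ℕ}

lemma totalDegree_aeval_le {p : MvPolynomial (Fin n × Fin n) K} (hp : p.totalDegree ≤ 1)
    {φ : Fin n × Fin n → MvPolynomial (Fin q × Fin q) K} (hφ : ∀ e, (φ e).totalDegree ≤ 1) :
    (aeval φ p).totalDegree ≤ 1 := by
  classical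
  rw [aeval_def, eval₂_eq]
  refine (totalDegree_finsetSum _ _).trans (Finset.sup_le fun d hd => ?_)
  refine (totalDegree_mul _ _).trans ?_
  have h1 : (algebraMap K (MvPolynomial (Fin q × Fin q) K) (coeff d p)).totalDegree = 0 :=
    totalDegree_C _
  rw [h1, zero_add]
  refine (totalDegree_finsetProd _ _).trans ?_
  have h2 : (∑ i ∈ d.support, d i) ≤ 1 := le_trans (le_totalDegree hd) hp
  refine le_trans (Finset.sum_le_sum fun i _ => ?_) h2
  refine (totalDegree_pow _ _).trans ?_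
  calc d i * (φ i).totalDegree ≤ d i * 1 := Nat.mul_le_mul_left _ (hφ i)
    _ = d i := mul_one _

/-- `B` is an affine determinantal representation of the permanent on the affine subspace
`A₀ + V`: its entries are polynomials of degree at most `1` in the entries of an `n × n` matrix and
`det B(X) = per X` for all `X` in `A₀ + V`. -/
def RepOn {N : ℕ} (A₀ : Matrix (Fin n) (Fin n) K) (V : Submodule K (Matrix (Fin n) (Fin n) K))
    (B : Matrix (Fin N) (Fin N) (MvPolynomial (Fin n × Fin n) K)) : Prop :=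
  (∀ i j, (B i j).totalDegree ≤ 1) ∧ ∀ Z : Matrix (Fin n) (Fin n) K, Z - A₀ ∈ V →
    (B.map (eval fun e => Z e.1 e.2)).det = Z.permanent

/-- **Representations on an affine subspace of codimension at most `n - q` give representations of
the permanent of size `q`.** -/
theorem rep_restr [Infinite K] (hq : 1 ≤ q) (A₀ : Matrix (Fin n) (Fin n) K)
    (V : Submodule K (Matrix (Fin n) (Fin n) K)) (hdim : n ^ 2 + q ≤ finrank K V + n) {N : ℕ}
    {B : Matrix (Fin N) (Fin N) (MvPolynomial (Fin n × Fin n) K)} (hB : RepOn A₀ V B) :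
    ∃ B' : Matrix (Fin N) (Fin N) (MvPolynomial (Fin q × Fin q) K),
      (∀ i j, (B' i j).totalDegree ≤ 1) ∧ B'.det = (genY K q).permanent := by
  obtain ⟨ψ, F, hψ, hperm⟩ := perm_restriction hq A₀ V hdim
  refine ⟨B.map (aeval fun e : Fin n × Fin n => restr A₀ ψ F e.1 e.2), fun i j => ?_, ?_⟩
  · rw [Matrix.map_apply]
    exact totalDegree_aeval_le (hB.1 i j) fun e => restr_degree A₀ ψ F e.1 e.2
  · have h1 : (B.map (aeval fun e : Fin n × Fin n => restr A₀ ψ F e.1 e.2)).det =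
        aeval (fun e : Fin n × Fin n => restr A₀ ψ F e.1 e.2) B.det := by
      rw [AlgHom.map_det, AlgHom.mapMatrix_apply]
    rw [h1]
    refine aeval_restr hψ hperm fun Z hZ => ?_
    rw [← hB.2 Z hZ, RingHom.map_det, RingHom.mapMatrix_apply]

/-- **Lower bound.** -/
theorem rep_lower [CharZero K] (hq : 1 ≤ q) (A₀ : Matrix (Fin n) (Fin n) K)
    (V : Submodule K (Matrix (Fin n) (Fin n) K)) (hdim : n ^ 2 + q ≤ finrank K V + n) {N : ℕ}
    {B : Matrix (Fin N) (Fin N) (MvPolynomial (Fin n × Fin n) K)} (hB : RepOn A₀ V B) :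
    q ^ 2 ≤ N + 4 * q := by
  obtain ⟨B', h1, h2⟩ := rep_restr hq A₀ V hdim hB
  exact Pool.Agent.Results.MP_35c45d_lc.DcPermLower.result q N B' h1 h2

end

/-- **Equivalence.** -/
theorem vpws_iff (K : Type) [Field K] [Infinite K] :
    (∃ c : ℕ, ∀ m : ℕ, ∃ N : ℕ, N ≤ c * m ^ c + c ∧
      ∃ B : Matrix (Fin N) (Fin N) (MvPolynomial (Fin m × Fin m) K),
        (∀ i j, (B i j).totalDegree ≤ 1) ∧ B.det = (genY K m).permanent) ↔
    (∃ c e : ℕ, ∀ m : ℕ, 1 ≤ m → ∃ n : ℕ, n ≤ m ^ e + e ∧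
      ∃ (A₀ : Matrix (Fin n) (Fin n) K) (V : Submodule K (Matrix (Fin n) (Fin n) K)),
        n ^ 2 + m ≤ finrank K V + n ∧ ∃ N : ℕ, N ≤ c * m ^ c + c ∧
          ∃ B : Matrix (Fin N) (Fin N) (MvPolynomial (Fin n × Fin n) K), RepOn A₀ V B) := by
  constructor
  · rintro ⟨c, hc⟩
    refine ⟨c, 1, fun m _ => ⟨m, by rw [pow_one]; omega, 0, ⊤, ?_, ?_⟩⟩
    · rw [finrank_top, Module.finrank_matrix]
      simp [pow_two]
    · obtain ⟨N, hN, B, hB1, hB2⟩ := hc m
      refine ⟨N, hN, B, hB1, fun Z _ => ?_⟩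
      have h1 := congrArg (eval fun e : Fin m × Fin m => Z e.1 e.2) hB2
      rw [RingHom.map_det, RingHom.mapMatrix_apply] at h1
      rw [h1]
      simp [genY, Matrix.permanent]
  · rintro ⟨c, e, H⟩
    refine ⟨c + 1, fun m => ?_⟩
    rcases Nat.eq_zero_or_pos m with rfl | hm
    · refine ⟨0, Nat.zero_le _, 0, fun i => i.elim0, ?_⟩
      simp [Matrix.permanent]
    · obtain ⟨n, -, A₀, V, hdim, N, hN, B, hB⟩ := H m hm
      obtain ⟨B', h1, h2⟩ := rep_restr hm A₀ V hdim hB
      refine ⟨N, hN.trans ?_, B', h1, h2⟩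
      have h3 : m ^ c ≤ m ^ (c + 1) := Nat.pow_le_pow_right hm (by omega)
      have h4 : c * m ^ c ≤ (c + 1) * m ^ (c + 1) := Nat.mul_le_mul (by omega) h3
      omega

end Pool.Agent.H53R4
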