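import Mathlib

/-!
# Permanents with prescribed entries outside a small set of positions
-/

namespace Pool.Agent.H53R4

open Equiv Finset

universe u

/-- If the first column is the first unit vector, the permanent is the permanent of the rest. -/
lemma permanent_first_col {R : Type u} [CommRing R] {n : ℕ}
    (M : Matrix (Fin (n + 1)) (Fin (n + 1)) R) (h0 : M 0 0 = 1) (hs : ∀ i : Fin n, M i.succ 0 = 0) :
    M.permanent = (M.submatrix Fin.succ Fin.succ).permanent := by
  unfold Matrix.permanent
  rw [← Equiv.sum_comp Equiv.Perm.decomposeFin.symm, Fintype.sum_prod_type, Fin.sum_univ_succ]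
  have h1 : ∑ i : Fin n, ∑ e : Perm (Fin n),
      ∏ j, M (Equiv.Perm.decomposeFin.symm (i.succ, e) j) j = 0 := by
    refine Finset.sum_eq_zero fun i _ => Finset.sum_eq_zero fun e _ => ?_
    rw [Fin.prod_univ_succ, Equiv.Perm.decomposeFin_symm_apply_zero, hs, zero_mul]
  rw [h1, add_zero]
  refine Finset.sum_congr rfl fun e _ => ?_
  rw [Fin.prod_univ_succ, Equiv.Perm.decomposeFin_symm_apply_zero, h0, one_mul]
  refine Finset.prod_congr rfl fun j _ => ?_
  rw [Equiv.Perm.decomposeFin_symm_apply_succ, Equiv.swap_self]
  rfl

/-- Value of a pattern symbol: `0`, `1` or an entry of `Y`. -/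
def patVal {R : Type u} [CommRing R] {q : ℕ} (Y : Matrix (Fin q) (Fin q) R) :
    Bool ⊕ (Fin q × Fin q) → R
  | .inl false => 0
  | .inl true => 1
  | .inr e => Y e.1 e.2

/-- **Entries in a set `P` of at most `n - q` positions do not matter** if the other entries are
chosen in a suitable way as `0`, `1` or entries of `Y`: the permanent is the permanent of `Y`. -/
theorem exists_pattern (q : ℕ) (hq : 1 ≤ q) : ∀ (n : ℕ) (P : Finset (Fin n × Fin n)),
    P.card + q ≤ n → ∃ F : Fin n → Fin n → Bool ⊕ (Fin q × Fin q),
      ∀ (R : Type u) [CommRing R] (Y : Matrix (Fin q) (Fin q) R) (M : Matrix (Fin n) (Fin n) R),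
        (∀ i j, (i, j) ∉ P → M i j = patVal Y (F i j)) → M.permanent = Y.permanent := by
  classical
  intro n
  induction n with
  | zero => intro P hP; omega
  | succ n ih =>
    intro P hP
    rcases Nat.lt_or_ge n q with hnq | hnq
    · have hn : n + 1 = q := by omega
      subst hn
      have hP0 : P = ∅ := Finset.card_eq_zero.mp (by omega)
      refine ⟨fun i j => .inr (i, j), fun R _ Y M hM => ?_⟩
      have : M = Y := by
        refine Matrix.ext fun i j => ?_
        rw [hM i j (by rw [hP0]; exact Finset.notMem_empty _)]
        rfl
      rw [this]
    · -- a column without positions of `P`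
      obtain ⟨c, hc⟩ : ∃ c : Fin (n + 1), c ∉ P.image Prod.snd := by
        by_contra hcon
        push Not at hcon
        have h1 : (Finset.univ : Finset (Fin (n + 1))) ⊆ P.image Prod.snd := fun c _ => hcon c
        have h2 := (Finset.card_le_card h1).trans Finset.card_image_le
        rw [Finset.card_univ, Fintype.card_fin] at h2
        omega
      have hc' : ∀ i, (i, c) ∉ P := fun i hi => hc (Finset.mem_image.mpr ⟨_, hi, rfl⟩)
      -- a row with a position of `P`, if there is one
      obtain ⟨r, hr⟩ : ∃ r : Fin (n + 1), P.Nonempty → ∃ j, (r, j) ∈ P := by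
        by_cases hne : P.Nonempty
        · obtain ⟨e, he⟩ := hne
          exact ⟨e.1, fun _ => ⟨e.2, he⟩⟩
        · exact ⟨0, fun h => absurd h hne⟩
      set er : Perm (Fin (n + 1)) := swap 0 r with her
      set ec : Perm (Fin (n + 1)) := swap 0 c with hec
      have herr : ∀ i, er (er i) = i := fun i => swap_apply_self 0 r i
      have hecc : ∀ i, ec (ec i) = i := fun i => swap_apply_self 0 c i
      have her0 : er 0 = r := swap_apply_left 0 r
      have hec0 : ec 0 = c := swap_apply_left 0 c
      set P' : Finset (Fin n × Fin n) :=
        Finset.univ.filter fun e => (er e.1.succ, ec e.2.succ) ∈ P with hP'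
      have hcard : P'.card + q ≤ n := by
        rcases P.eq_empty_or_nonempty with he | hne
        · have : P' = ∅ := by
            rw [hP', he]
            exact Finset.filter_false_of_mem fun _ _ => Finset.notMem_empty _
          rw [this, Finset.card_empty]
          omega
        · obtain ⟨j, hj⟩ := hr hne
          have h1 : P'.card ≤ (P.erase (r, j)).card := by
            refine Finset.card_le_card_of_injOn (fun e => (er e.1.succ, ec e.2.succ)) ?_ ?_
            · intro e he
              have he' : (er e.1.succ, ec e.2.succ) ∈ P := (Finset.mem_filter.mp he).2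
              refine Finset.mem_coe.mpr (Finset.mem_erase.mpr ⟨?_, he'⟩)
              intro heq
              have h2 : er e.1.succ = er 0 := by rw [her0]; exact congrArg Prod.fst heq
              exact Fin.succ_ne_zero _ (er.injective h2)
            · intro e _ e' _ heq
              have h2 := er.injective (congrArg Prod.fst heq)
              have h3 := ec.injective (congrArg Prod.snd heq)
              exact Prod.ext (Fin.succ_injective _ h2) (Fin.succ_injective _ h3)
          rw [Finset.card_erase_of_mem hj] at h1
          have := Finset.card_pos.mpr hne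
          omega
      obtain ⟨F', hF'⟩ := ih P' hcard
      let G : Fin (n + 1) → Fin (n + 1) → Bool ⊕ (Fin q × Fin q) := fun i j =>
        Fin.cases (Fin.cases (.inl true) (fun _ => .inl false) j)
          (fun i' => Fin.cases (.inl false) (fun j' => F' i' j') j) i
      refine ⟨fun i j => G (er i) (ec j), fun R _ Y M hM => ?_⟩
      have hM' : ∀ i j, (er i, ec j) ∉ P → M (er i) (ec j) = patVal Y (G i j) := by
        intro i j hij
        have := hM _ _ hij
        simp only [herr, hecc] at this
        exact this
      have e1 : (M.submatrix er ec).permanent = M.permanent := by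
        have h1 := Matrix.permanent_permute_cols er M
        have h2 := Matrix.permanent_permute_rows ec (M.submatrix er id)
        have h3 : (M.submatrix er id).submatrix id ec = M.submatrix er ec := rfl
        rw [← h3, h2, h1]
      rw [← e1, permanent_first_col]
      · refine hF' R Y _ fun i j hij => ?_
        rw [Matrix.submatrix_apply, Matrix.submatrix_apply]
        have hij' : (er i.succ, ec j.succ) ∉ P := by
          intro h
          apply hij
          rw [hP']
          exact Finset.mem_filter.mpr ⟨Finset.mem_univ _, h⟩
        rw [hM' i.succ j.succ hij']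
        rfl
      · rw [Matrix.submatrix_apply, hM' 0 0 (by rw [hec0]; exact hc' _)]
        rfl
      · intro i
        rw [Matrix.submatrix_apply, hM' i.succ 0 (by rw [hec0]; exact hc' _)]
        rfl

end Pool.Agent.H53R4
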