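import Pool.Agent.H53R4.Compl

/-!
# The permanent of size `q` inside every affine subspace of codimension at most `n - q`
-/

namespace Pool.Agent.H53R4

open Module MvPolynomial

universe u

section

variable {K : Type u} [Field K] {n q : ℕ}

/-- The generic matrix. -/
noncomputable def genY (K : Type u) [Field K] (q : ℕ) :
    Matrix (Fin q) (Fin q) (MvPolynomial (Fin q × Fin q) K) :=
  Matrix.of fun i j => X (i, j)

/-- The affine forms of the restriction. -/
noncomputable def restr (A₀ : Matrix (Fin n) (Fin n) K)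
    (ψ : Matrix (Fin n) (Fin n) K →ₗ[K] Matrix (Fin n) (Fin n) K)
    (F : Fin n → Fin n → Bool ⊕ (Fin q × Fin q)) :
    Matrix (Fin n) (Fin n) (MvPolynomial (Fin q × Fin q) K) :=
  Matrix.of fun i j => C (A₀ i j - ψ A₀ i j) +
    ∑ e : Fin n × Fin n, C (ψ (Matrix.single e.1 e.2 1) i j) * patVal (genY K q) (F e.1 e.2)

lemma patVal_degree (s : Bool ⊕ (Fin q × Fin q)) : (patVal (genY K q) s).totalDegree ≤ 1 := by
  rcases s with (_ | _) | e
  · simp [patVal]
  · simp [patVal]
  · simp [patVal, genY]

lemma restr_degree (A₀ : Matrix (Fin n) (Fin n) K)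
    (ψ : Matrix (Fin n) (Fin n) K →ₗ[K] Matrix (Fin n) (Fin n) K)
    (F : Fin n → Fin n → Bool ⊕ (Fin q × Fin q)) (i j : Fin n) :
    (restr A₀ ψ F i j).totalDegree ≤ 1 := by
  unfold restr
  rw [Matrix.of_apply]
  refine (totalDegree_add _ _).trans (max_le (by rw [totalDegree_C]; exact Nat.zero_le _) ?_)
  refine (totalDegree_finsetSum _ _).trans (Finset.sup_le fun e _ => ?_)
  refine (totalDegree_mul _ _).trans ?_
  rw [totalDegree_C, zero_add]
  exact patVal_degree _

lemma restr_mem {V : Submodule K (Matrix (Fin n) (Fin n) K)} (A₀ : Matrix (Fin n) (Fin n) K)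
    (ψ : Matrix (Fin n) (Fin n) K →ₗ[K] Matrix (Fin n) (Fin n) K) (hψ : ∀ W, ψ W ∈ V)
    (F : Fin n → Fin n → Bool ⊕ (Fin q × Fin q)) (y : Fin q × Fin q → K) :
    (restr A₀ ψ F).map (eval y) - A₀ ∈ V := by
  set W : Matrix (Fin n) (Fin n) K := Matrix.of fun a b => eval y (patVal (genY K q) (F a b))
    with hW
  have h : (restr A₀ ψ F).map (eval y) - A₀ = ψ (W - A₀) := by
    rw [map_sub]
    have h1 : ψ W = ∑ e : Fin n × Fin n, W e.1 e.2 • ψ (Matrix.single e.1 e.2 1) := by
      conv_lhs => rw [Matrix.matrix_eq_sum_single W]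
      rw [map_sum, Fintype.sum_prod_type]
      refine Finset.sum_congr rfl fun a _ => ?_
      rw [map_sum]
      refine Finset.sum_congr rfl fun b _ => ?_
      rw [← map_smul, Matrix.smul_single, smul_eq_mul, mul_one]
    refine Matrix.ext fun i j => ?_
    rw [Matrix.sub_apply, Matrix.map_apply, Matrix.sub_apply, h1, Matrix.sum_apply, restr,
      Matrix.of_apply, map_add, eval_C, map_sum]
    have h2 : ∀ e : Fin n × Fin n, eval y (C (ψ (Matrix.single e.1 e.2 1) i j) *
        patVal (genY K q) (F e.1 e.2)) = (W e.1 e.2 • ψ (Matrix.single e.1 e.2 1)) i j := by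
      intro e
      rw [map_mul, eval_C, Matrix.smul_apply, hW, Matrix.of_apply, smul_eq_mul, mul_comm]
    rw [Finset.sum_congr rfl fun e _ => h2 e]
    ring
  rw [h]
  exact hψ _

/-- **The permanent of size `q` is an affine restriction of the permanent of size `n` on every
affine subspace of codimension at most `n - q`.** -/
theorem perm_restriction (hq : 1 ≤ q) (A₀ : Matrix (Fin n) (Fin n) K)
    (V : Submodule K (Matrix (Fin n) (Fin n) K)) (hdim : n ^ 2 + q ≤ finrank K V + n) :
    ∃ (ψ : Matrix (Fin n) (Fin n) K →ₗ[K] Matrix (Fin n) (Fin n) K)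
      (F : Fin n → Fin n → Bool ⊕ (Fin q × Fin q)), (∀ W, ψ W ∈ V) ∧
      (restr A₀ ψ F).permanent = (genY K q).permanent := by
  obtain ⟨P, ψ, hP, hψ, hfree⟩ := exists_free V
  obtain ⟨F, hF⟩ := exists_pattern.{u} q hq n P (by omega)
  refine ⟨ψ, F, hψ, hF _ (genY K q) _ fun i j hij => ?_⟩
  rw [restr, Matrix.of_apply, hfree A₀ i j hij, sub_self, C_0, zero_add,
    Finset.sum_eq_single (i, j)]
  · rw [hfree _ i j hij]
    simp
  · intro e _ he
    rw [hfree _ i j hij, Matrix.single_apply, if_neg, C_0, zero_mul]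
    rintro ⟨h1, h2⟩
    exact he (Prod.ext h1 h2)
  · simp

/-- Polynomials which agree with the permanent on the affine subspace restrict to the permanent of
size `q`. -/
theorem aeval_restr [Infinite K] {A₀ : Matrix (Fin n) (Fin n) K}
    {V : Submodule K (Matrix (Fin n) (Fin n) K)}
    {ψ : Matrix (Fin n) (Fin n) K →ₗ[K] Matrix (Fin n) (Fin n) K}
    {F : Fin n → Fin n → Bool ⊕ (Fin q × Fin q)} (hψ : ∀ W, ψ W ∈ V)
    (hperm : (restr A₀ ψ F).permanent = (genY K q).permanent)
    {f : MvPolynomial (Fin n × Fin n) K}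
    (hf : ∀ X : Matrix (Fin n) (Fin n) K, X - A₀ ∈ V → eval (fun e => X e.1 e.2) f = X.permanent) :
    aeval (fun e : Fin n × Fin n => restr A₀ ψ F e.1 e.2) f = (genY K q).permanent := by
  refine MvPolynomial.funext fun y => ?_
  have h1 : eval y (aeval (fun e : Fin n × Fin n => restr A₀ ψ F e.1 e.2) f) =
      eval (fun e => ((restr A₀ ψ F).map (eval y)) e.1 e.2) f := by
    rw [aeval_def, ← coe_eval₂Hom, ← RingHom.comp_apply]
    congr 1
    refine MvPolynomial.ringHom_ext (fun c => ?_) fun e => ?_
    · simp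
    · simp
  rw [h1, hf _ (restr_mem A₀ ψ hψ F y), ← hperm]
  simp only [Matrix.permanent, map_sum, map_prod, Matrix.map_apply]

/-- On some subspace of codimension `n` the permanent vanishes. -/
theorem exists_zero_subspace (K : Type u) [Field K] (n : ℕ) (hn : 1 ≤ n) :
    ∃ V : Submodule K (Matrix (Fin n) (Fin n) K), n ^ 2 ≤ finrank K V + n ∧
      ∀ X ∈ V, X.permanent = 0 := by
  classical
  have : NeZero n := ⟨by omega⟩
  let P : Finset (Fin n × Fin n) := Finset.univ.filter fun e => e.1 ≠ 0
  refine ⟨supp K P, ?_, fun X hX => ?_⟩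
  · have h1 := card_le_finrank_supp (K := K) P
    have h2 : P.card + n = n ^ 2 := by
      have h3 := Finset.card_filter_add_card_filter_not (s := (Finset.univ : Finset (Fin n × Fin n)))
        (fun e : Fin n × Fin n => e.1 ≠ 0)
      have h4 : (Finset.univ.filter fun e : Fin n × Fin n => ¬ e.1 ≠ 0).card = n := by
        have : (Finset.univ.filter fun e : Fin n × Fin n => ¬ e.1 ≠ 0) =
            Finset.univ.image fun j : Fin n => ((0 : Fin n), j) := by
          ext e
          simp only [ne_eq, not_not, Finset.mem_filter, Finset.mem_univ, true_and,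
            Finset.mem_image]
          constructor
          · intro h
            exact ⟨e.2, Prod.ext h.symm rfl⟩
          · rintro ⟨j, rfl⟩
            rfl
        rw [this, Finset.card_image_of_injective _ (fun a b h => congrArg Prod.snd h),
          Finset.card_univ, Fintype.card_fin]
      rw [h4] at h3
      rw [Finset.card_univ, Fintype.card_prod, Fintype.card_fin] at h3
      rw [pow_two]
      exact h3
    omega
  · unfold Matrix.permanent
    refine Finset.sum_eq_zero fun σ _ => ?_
    refine Finset.prod_eq_zero (Finset.mem_univ (σ.symm 0)) ?_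
    refine hX _ _ ?_
    simp [P]

end

end Pool.Agent.H53R4
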